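import Mathlib

set_option autoImplicit false

/-! Counting members of a set family inside a random subset: basic definitions. -/

namespace Pool.Agent.Q151.Ind

open Finset

/-- The number of members of `𝒜` that are contained in `X`. -/
def cnt {B : Type} [DecidableEq B] (𝒜 : Finset (Finset B)) (X : Finset B) : ℕ :=
  (𝒜.filter (fun A => A ⊆ X)).card

/-- The probability of the outcome `X`, if every element is kept independently with
probability `p`. -/
noncomputable def wt {B : Type} [Fintype B] (p : ℝ) (X : Finset B) : ℝ :=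
  p ^ X.card * (1 - p) ^ (Fintype.card B - X.card)

/-- The probability that exactly `l` members of `𝒜` are contained in the random subset. -/
noncomputable def prob {B : Type} [Fintype B] [DecidableEq B] (𝒜 : Finset (Finset B)) (p : ℝ)
    (l : ℕ) : ℝ :=
  ∑ X : Finset B, if cnt 𝒜 X = l then wt p X else 0

variable {B : Type} [Fintype B] [DecidableEq B]

lemma wt_nonneg {p : ℝ} (h0 : 0 ≤ p) (h1 : p ≤ 1) (X : Finset B) : 0 ≤ wt p X := by
  unfold wt
  have : (0 : ℝ) ≤ 1 - p := by linarith
  positivity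

lemma wt_pos {p : ℝ} (h0 : 0 < p) (h1 : p < 1) (X : Finset B) : 0 < wt p X := by
  unfold wt
  have : (0 : ℝ) < 1 - p := by linarith
  positivity

omit [DecidableEq B] in
lemma sum_wt (p : ℝ) : ∑ X : Finset B, wt p X = 1 := by
  unfold wt
  rw [Fintype.sum_pow_mul_eq_add_pow]
  simp

lemma prob_nonneg {p : ℝ} (h0 : 0 ≤ p) (h1 : p ≤ 1) (𝒜 : Finset (Finset B)) (l : ℕ) :
    0 ≤ prob 𝒜 p l := by
  unfold prob
  refine Finset.sum_nonneg fun X _ => ?_
  split_ifs
  · exact wt_nonneg h0 h1 X
  · exact le_rfl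

lemma prob_le_one {p : ℝ} (h0 : 0 ≤ p) (h1 : p ≤ 1) (𝒜 : Finset (Finset B)) (l : ℕ) :
    prob 𝒜 p l ≤ 1 := by
  rw [← sum_wt (B := B) p]
  unfold prob
  refine Finset.sum_le_sum fun X _ => ?_
  split_ifs
  · exact le_rfl
  · exact wt_nonneg h0 h1 X

lemma cnt_mono (𝒜 : Finset (Finset B)) {X Y : Finset B} (h : X ⊆ Y) : cnt 𝒜 X ≤ cnt 𝒜 Y := by
  unfold cnt
  apply Finset.card_le_card
  intro A hA
  rw [mem_filter] at hA ⊢
  exact ⟨hA.1, hA.2.trans h⟩

/-- sums over sets of a function of the size -/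
lemma sum_wt_card (p : ℝ) (g : ℕ → ℝ) :
    ∑ X : Finset B, wt p X * g X.card =
      ∑ i ∈ range (Fintype.card B + 1), ((Fintype.card B).choose i : ℝ) * p ^ i *
        (1 - p) ^ (Fintype.card B - i) * g i := by
  have h := Finset.sum_powerset_apply_card
    (x := (univ : Finset B)) (fun i => p ^ i * (1 - p) ^ (Fintype.card B - i) * g i)
  rw [powerset_univ, card_univ] at h
  unfold wt
  rw [h]
  refine Finset.sum_congr rfl fun i _ => ?_
  rw [nsmul_eq_mul]
  ring

end Pool.Agent.Q151.Ind
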