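import Pool.Agent.Q151.Ind.Color

set_option autoImplicit false

/-! The family of a block: sets of size `s` of colour `0`, and sets of size `s + 1` which contain
such a set. -/

namespace Pool.Agent.Q151.Ind

open Finset

variable {B : Type} [Fintype B] [DecidableEq B]

/-- the sets of colour `0` and size `s`, and the sets of size `s + 1` which contain one of them -/
def fam {M : ℕ} (s : ℕ) (χ : Finset B → Fin (M + 1)) : Finset (Finset B) :=
  univ.filter (fun A => (A.card = s ∨ A.card = s + 1) ∧ ∃ W ∈ powersetCard s A, χ W = 0)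

lemma fam_nonempty {M s : ℕ} (hs : 1 ≤ s) (χ : Finset B → Fin (M + 1)) :
    ∀ A ∈ fam s χ, A.Nonempty := by
  intro A hA
  unfold fam at hA
  rw [mem_filter] at hA
  rw [← Finset.card_pos]
  rcases hA.2.1 with h | h <;> omega

lemma hot {M s : ℕ} (χ : Finset B → Fin (M + 1)) (X : Finset B) (h : cnt (fam s χ) X ≠ 0) :
    zc χ (powersetCard s X) ≠ 0 := by
  unfold cnt at h
  obtain ⟨A, hA⟩ := Finset.card_ne_zero.1 h
  rw [mem_filter] at hA
  unfold fam at hA
  rw [mem_filter] at hA
  obtain ⟨⟨_, _, W, hW, hχ⟩, hAX⟩ := hA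
  unfold zc
  rw [Finset.card_ne_zero]
  refine ⟨W, ?_⟩
  rw [mem_filter]
  refine ⟨?_, hχ⟩
  rw [mem_powersetCard] at hW ⊢
  exact ⟨hW.1.trans hAX, hW.2⟩

lemma cnt_one {M s j : ℕ} (χ : Finset B → Fin (M + 1)) (X : Finset B) (hX : X.card = s + j)
    (h : zc χ (powersetCard s X) = 1) : cnt (fam s χ) X = j + 1 := by
  unfold zc at h
  obtain ⟨W, hW⟩ := Finset.card_eq_one.1 h
  have hWm : W ∈ (powersetCard s X).filter (fun W => χ W = 0) := by rw [hW]; simp
  rw [mem_filter, mem_powersetCard] at hWm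
  obtain ⟨⟨hWX, hWs⟩, hWχ⟩ := hWm
  have huniq : ∀ W', W' ⊆ X → W'.card = s → χ W' = 0 → W' = W := by
    intro W' h1 h2 h3
    have : W' ∈ (powersetCard s X).filter (fun W => χ W = 0) := by
      rw [mem_filter, mem_powersetCard]
      exact ⟨⟨h1, h2⟩, h3⟩
    rw [hW] at this
    simpa using this
  have hset : (fam s χ).filter (fun A => A ⊆ X) =
      insert W ((X \ W).image (fun v => insert v W)) := by
    ext A
    simp only [fam, mem_filter, mem_univ, true_and, mem_insert, mem_image, mem_sdiff]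
    constructor
    · rintro ⟨⟨hc, W', hW', hχ'⟩, hAX⟩
      rw [mem_powersetCard] at hW'
      have e : W' = W := huniq W' (hW'.1.trans hAX) hW'.2 hχ'
      subst e
      rcases hc with hc | hc
      · left
        exact (Finset.eq_of_subset_of_card_le hW'.1 (by omega)).symm
      · right
        have h1 : (A \ W').card = 1 := by
          rw [card_sdiff_of_subset hW'.1]
          omega
        obtain ⟨v, hv⟩ := Finset.card_eq_one.1 h1
        have hvm : v ∈ A \ W' := by rw [hv]; simp
        rw [mem_sdiff] at hvm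
        refine ⟨v, ⟨hAX hvm.1, hvm.2⟩, ?_⟩
        rw [Finset.insert_eq, ← hv, Finset.sdiff_union_of_subset hW'.1]
    · rintro (rfl | ⟨v, ⟨hvX, hvW⟩, rfl⟩)
      · refine ⟨⟨Or.inl hWs, A, ?_, hWχ⟩, hWX⟩
        rw [mem_powersetCard]
        exact ⟨subset_rfl, hWs⟩
      · refine ⟨⟨Or.inr ?_, W, ?_, hWχ⟩, ?_⟩
        · rw [card_insert_of_notMem hvW, hWs]
        · rw [mem_powersetCard]
          exact ⟨subset_insert _ _, hWs⟩
        · exact insert_subset hvX hWX
  unfold cnt
  rw [hset, card_insert_of_notMem, card_image_of_injOn, card_sdiff_of_subset hWX]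
  · omega
  · intro v hv w hw hvw
    rw [mem_coe, mem_sdiff] at hv hw
    have h1 : v ∈ insert w W := by
      have : v ∈ insert v W := mem_insert_self _ _
      exact (show insert v W = insert w W from hvw) ▸ this
    rcases mem_insert.1 h1 with h2 | h2
    · exact h2
    · exact absurd h2 hv.2
  · intro hmem
    obtain ⟨v, hv, hvW⟩ := mem_image.1 hmem
    rw [mem_sdiff] at hv
    apply hv.2
    rw [← hvW]
    exact mem_insert_self _ _

/-- the probability that the block is hot -/
noncomputable def hp {M : ℕ} (s : ℕ) (p : ℝ) (χ : Finset B → Fin (M + 1)) : ℝ :=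
  1 - prob (fam s χ) p 0

lemma hp_eq {M : ℕ} (s : ℕ) (p : ℝ) (χ : Finset B → Fin (M + 1)) :
    hp s p χ = ∑ X : Finset B, wt p X * (if cnt (fam s χ) X = 0 then 0 else 1) := by
  unfold hp prob
  have e : (1 : ℝ) - ∑ X : Finset B, (if cnt (fam s χ) X = 0 then wt p X else 0) =
      (∑ X : Finset B, wt p X) - ∑ X : Finset B, (if cnt (fam s χ) X = 0 then wt p X else 0) := by
    rw [sum_wt]
  rw [e, ← sum_sub_distrib]
  refine sum_congr rfl fun X _ => ?_
  by_cases h : cnt (fam s χ) X = 0
  · simp [h]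
  · simp [h]

lemma avg_hp {M : ℕ} (s : ℕ) {p : ℝ} (h0 : 0 ≤ p) (h1 : p ≤ 1) :
    avg M (fun χ : Finset B → Fin (M + 1) => hp s p χ) ≤
      ∑ X : Finset B, wt p X * min 1 ((X.card.choose s : ℝ) / ((M : ℝ) + 1)) := by
  have e1 : avg M (fun χ : Finset B → Fin (M + 1) => hp s p χ) ≤
      avg M (fun χ : Finset B → Fin (M + 1) =>
        ∑ X : Finset B, wt p X * (if zc χ (powersetCard s X) = 0 then (0 : ℝ) else 1)) := by
    apply avg_mono
    intro χ
    rw [hp_eq]
    refine sum_le_sum fun X _ => mul_le_mul_of_nonneg_left ?_ (wt_nonneg h0 h1 X)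
    by_cases h : cnt (fam s χ) X = 0
    · rw [if_pos h]
      split_ifs <;> norm_num
    · rw [if_neg h, if_neg (hot χ X h)]
  refine e1.trans ?_
  rw [avg_sum]
  refine sum_le_sum fun X _ => ?_
  rw [avg_mul]
  refine mul_le_mul_of_nonneg_left ?_ (wt_nonneg h0 h1 X)
  have := avg_some M (powersetCard s X)
  rwa [card_powersetCard] at this

lemma avg_prob {M : ℕ} (s j : ℕ) {p : ℝ} (h0 : 0 ≤ p) (h1 : p ≤ 1) :
    ∑ X : Finset B, wt p X * (if X.card = s + j then
      ((s + j).choose s : ℝ) / ((M : ℝ) + 1) - (((s + j).choose s : ℝ) / ((M : ℝ) + 1)) ^ 2 else 0) ≤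
    avg M (fun χ : Finset B → Fin (M + 1) => prob (fam s χ) p (j + 1)) := by
  have e1 : avg M (fun χ : Finset B → Fin (M + 1) =>
        ∑ X : Finset B, wt p X * (if X.card = s + j then
          (if zc χ (powersetCard s X) = 1 then (1 : ℝ) else 0) else 0)) ≤
      avg M (fun χ : Finset B → Fin (M + 1) => prob (fam s χ) p (j + 1)) := by
    apply avg_mono
    intro χ
    unfold prob
    refine sum_le_sum fun X _ => ?_
    by_cases hX : X.card = s + j
    · by_cases h : zc χ (powersetCard s X) = 1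
      · rw [if_pos hX, if_pos h, mul_one, if_pos (cnt_one χ X hX h)]
      · rw [if_pos hX, if_neg h, mul_zero]
        split_ifs
        · exact wt_nonneg h0 h1 X
        · exact le_rfl
    · rw [if_neg hX, mul_zero]
      split_ifs
      · exact wt_nonneg h0 h1 X
      · exact le_rfl
  refine le_trans ?_ e1
  rw [avg_sum]
  refine sum_le_sum fun X _ => ?_
  rw [avg_mul]
  refine mul_le_mul_of_nonneg_left ?_ (wt_nonneg h0 h1 X)
  by_cases hX : X.card = s + j
  · simp only [if_pos hX]
    have := avg_one M (powersetCard s X)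
    rwa [card_powersetCard, hX] at this
  · simp only [if_neg hX]
    rw [avg_const]

end Pool.Agent.Q151.Ind
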