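import Pool.Agent.Q151.Ind.Basic

set_option autoImplicit false

/-! Random colourings: averages over all functions `ι → Fin (M + 1)`. -/

namespace Pool.Agent.Q151.Ind

open Finset

variable {ι : Type} [Fintype ι] [DecidableEq ι]

lemma card_zero (M : ℕ) (S : Finset ι) :
    (univ.filter (fun χ : ι → Fin (M + 1) => ∀ A ∈ S, χ A = 0)).card * (M + 1) ^ S.card =
      (M + 1) ^ Fintype.card ι := by
  have h1 : (univ.filter (fun χ : ι → Fin (M + 1) => ∀ A ∈ S, χ A = 0)) =
      Fintype.piFinset (fun A => if A ∈ S then {0} else univ) := by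
    ext χ
    simp only [mem_filter, mem_univ, true_and, Fintype.mem_piFinset]
    constructor
    · intro h A
      split_ifs with hA
      · simpa using h A hA
      · exact mem_univ _
    · intro h A hA
      have := h A
      rw [if_pos hA] at this
      simpa using this
  rw [h1, Fintype.card_piFinset]
  have h2 : (M + 1) ^ S.card = ∏ A : ι, if A ∈ S then (M + 1) else 1 := by
    rw [Finset.prod_ite_mem, univ_inter, prod_const]
  rw [h2, ← prod_mul_distrib]
  have h3 : ∀ A : ι, ((if A ∈ S then ({0} : Finset (Fin (M + 1))) else univ).card *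
      if A ∈ S then (M + 1) else 1) = M + 1 := by
    intro A
    split_ifs
    · simp
    · simp
  rw [prod_congr rfl (fun A _ => h3 A), prod_const, card_univ]

/-- the average over all colourings -/
noncomputable def avg (M : ℕ) (g : (ι → Fin (M + 1)) → ℝ) : ℝ :=
  (∑ χ : ι → Fin (M + 1), g χ) / ((M : ℝ) + 1) ^ Fintype.card ι

lemma avg_mono {M : ℕ} {g g' : (ι → Fin (M + 1)) → ℝ} (h : ∀ χ, g χ ≤ g' χ) :
    avg M g ≤ avg M g' := by
  unfold avg
  gcongr
  exact h _

lemma avg_add (M : ℕ) (g g' : (ι → Fin (M + 1)) → ℝ) :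
    avg M (fun χ => g χ + g' χ) = avg M g + avg M g' := by
  unfold avg
  rw [sum_add_distrib, add_div]

lemma avg_sub (M : ℕ) (g g' : (ι → Fin (M + 1)) → ℝ) :
    avg M (fun χ => g χ - g' χ) = avg M g - avg M g' := by
  unfold avg
  rw [sum_sub_distrib, sub_div]

lemma avg_mul (M : ℕ) (c : ℝ) (g : (ι → Fin (M + 1)) → ℝ) :
    avg M (fun χ => c * g χ) = c * avg M g := by
  unfold avg
  rw [← mul_sum, mul_div_assoc]

lemma avg_const (M : ℕ) (c : ℝ) : avg (ι := ι) M (fun _ => c) = c := by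
  unfold avg
  rw [sum_const, card_univ, Fintype.card_fun, Fintype.card_fin, nsmul_eq_mul]
  push_cast
  field_simp

lemma avg_sum {κ : Type} (M : ℕ) (S : Finset κ) (g : κ → (ι → Fin (M + 1)) → ℝ) :
    avg M (fun χ => ∑ k ∈ S, g k χ) = ∑ k ∈ S, avg M (g k) := by
  unfold avg
  rw [sum_comm, sum_div]

lemma avg_zero (M : ℕ) (S : Finset ι) :
    avg M (fun χ => if ∀ A ∈ S, χ A = 0 then (1 : ℝ) else 0) = 1 / ((M : ℝ) + 1) ^ S.card := by
  have h := card_zero M S
  unfold avg
  rw [← sum_filter, sum_const, nsmul_eq_mul, mul_one]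
  have h' : ((univ.filter (fun χ : ι → Fin (M + 1) => ∀ A ∈ S, χ A = 0)).card : ℝ) *
      ((M : ℝ) + 1) ^ S.card = ((M : ℝ) + 1) ^ Fintype.card ι := by
    exact_mod_cast h
  have hp : (0 : ℝ) < ((M : ℝ) + 1) ^ S.card := by positivity
  have hq : (0 : ℝ) < ((M : ℝ) + 1) ^ Fintype.card ι := by positivity
  rw [div_eq_div_iff hq.ne' hp.ne', h', one_mul]

lemma avg_pos_exists {M : ℕ} {g : (ι → Fin (M + 1)) → ℝ} (h : 0 < avg M g) : ∃ χ, 0 < g χ := by
  by_contra hc
  push Not at hc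
  have : avg M g ≤ avg M (fun _ => (0 : ℝ)) := avg_mono hc
  rw [avg_const] at this
  linarith

/-- the number of elements of `P` with the colour `0` -/
def zc {M : ℕ} (χ : ι → Fin (M + 1)) (P : Finset ι) : ℕ := (P.filter (fun W => χ W = 0)).card

lemma zc_eq {M : ℕ} (χ : ι → Fin (M + 1)) (P : Finset ι) :
    (zc χ P : ℝ) = ∑ W ∈ P, if ∀ A ∈ ({W} : Finset ι), χ A = 0 then (1 : ℝ) else 0 := by
  unfold zc
  rw [card_filter]
  push_cast
  refine sum_congr rfl fun W _ => ?_
  simp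

lemma avg_zc (M : ℕ) (P : Finset ι) : avg M (fun χ => (zc χ P : ℝ)) = P.card / ((M : ℝ) + 1) := by
  have : avg M (fun χ => (zc χ P : ℝ)) =
      avg M (fun χ => ∑ W ∈ P, if ∀ A ∈ ({W} : Finset ι), χ A = 0 then (1 : ℝ) else 0) := by
    congr 1
    ext χ
    exact zc_eq χ P
  have h2 : ∀ W ∈ P, avg M (fun χ : ι → Fin (M + 1) =>
      if ∀ A ∈ ({W} : Finset ι), χ A = 0 then (1 : ℝ) else 0) = 1 / ((M : ℝ) + 1) := by
    intro W _
    rw [avg_zero, card_singleton, pow_one]
  rw [this, avg_sum, sum_congr rfl h2, sum_const, nsmul_eq_mul]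
  ring

lemma zc_sq {M : ℕ} (χ : ι → Fin (M + 1)) (P : Finset ι) :
    (zc χ P : ℝ) ^ 2 - zc χ P =
      ∑ q ∈ P.offDiag, if ∀ A ∈ ({q.1, q.2} : Finset ι), χ A = 0 then (1 : ℝ) else 0 := by
  have h1 : (P.filter (fun W => χ W = 0)).offDiag =
      P.offDiag.filter (fun q => ∀ A ∈ ({q.1, q.2} : Finset ι), χ A = 0) := by
    ext ⟨a, b⟩
    simp only [mem_offDiag, mem_filter, mem_insert, mem_singleton, forall_eq_or_imp, forall_eq]
    tauto
  have h2 := offDiag_card (P.filter (fun W => χ W = 0))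
  rw [h1] at h2
  rw [← sum_filter, sum_const, nsmul_eq_mul, mul_one, h2, Nat.cast_sub (Nat.le_mul_self _)]
  unfold zc
  push_cast
  ring

lemma avg_zc_sq (M : ℕ) (P : Finset ι) : avg M (fun χ => (zc χ P : ℝ) ^ 2 - zc χ P) ≤
    (P.card / ((M : ℝ) + 1)) ^ 2 := by
  have : avg M (fun χ => (zc χ P : ℝ) ^ 2 - zc χ P) =
      avg M (fun χ => ∑ q ∈ P.offDiag,
        if ∀ A ∈ ({q.1, q.2} : Finset ι), χ A = 0 then (1 : ℝ) else 0) := by
    congr 1
    ext χ
    exact zc_sq χ P
  rw [this, avg_sum]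
  have h3 : ∀ q ∈ P.offDiag, avg M (fun χ : ι → Fin (M + 1) =>
      if ∀ A ∈ ({q.1, q.2} : Finset ι), χ A = 0 then (1 : ℝ) else 0) = 1 / ((M : ℝ) + 1) ^ 2 := by
    intro q hq
    rw [avg_zero, card_pair (mem_offDiag.1 hq).2.2]
  rw [sum_congr rfl h3, sum_const, nsmul_eq_mul, offDiag_card, div_pow, mul_one_div]
  gcongr
  have : P.card * P.card - P.card ≤ P.card * P.card := Nat.sub_le _ _
  calc ((P.card * P.card - P.card : ℕ) : ℝ) ≤ ((P.card * P.card : ℕ) : ℝ) := by exact_mod_cast this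
    _ = (P.card : ℝ) ^ 2 := by push_cast; ring

/-- the probability that the colour `0` appears exactly once -/
lemma avg_one (M : ℕ) (P : Finset ι) :
    P.card / ((M : ℝ) + 1) - (P.card / ((M : ℝ) + 1)) ^ 2 ≤
      avg M (fun χ => if zc χ P = 1 then (1 : ℝ) else 0) := by
  have h1 : avg M (fun χ => (zc χ P : ℝ) - ((zc χ P : ℝ) ^ 2 - zc χ P)) ≤
      avg M (fun χ => if zc χ P = 1 then (1 : ℝ) else 0) := by
    apply avg_mono
    intro χ
    rcases Nat.lt_trichotomy (zc χ P) 1 with h | h | h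
    · have : zc χ P = 0 := by omega
      simp [this]
    · simp [h]
    · have h2 : (2 : ℝ) ≤ zc χ P := by exact_mod_cast h
      rw [if_neg (by omega)]
      nlinarith
  rw [avg_sub, avg_zc] at h1
  have h2 := avg_zc_sq M P
  linarith

/-- the probability that the colour `0` appears -/
lemma avg_some (M : ℕ) (P : Finset ι) :
    avg M (fun χ => if zc χ P = 0 then (0 : ℝ) else 1) ≤ min 1 (P.card / ((M : ℝ) + 1)) := by
  refine le_min ?_ ?_
  · have h1 : avg M (fun χ : ι → Fin (M + 1) => if zc χ P = 0 then (0 : ℝ) else 1) ≤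
        avg M (fun _ : ι → Fin (M + 1) => (1 : ℝ)) := by
      apply avg_mono
      intro χ
      split_ifs <;> norm_num
    rwa [avg_const] at h1
  · rw [← avg_zc]
    apply avg_mono
    intro χ
    split_ifs with h
    · simp [h]
    · have : 1 ≤ zc χ P := Nat.one_le_iff_ne_zero.2 h
      exact_mod_cast this

end Pool.Agent.Q151.Ind
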