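import Pool.Agent.Q151.Ind.Basic

set_option autoImplicit false

/-! Disjoint unions of set families. -/

namespace Pool.Agent.Q151.Ind

open Finset

section

variable {B C : Type} [Fintype B] [DecidableEq B] [Fintype C] [DecidableEq C]

/-- the disjoint union of two set families -/
def join (𝒜 : Finset (Finset B)) (𝒞 : Finset (Finset C)) : Finset (Finset (B ⊕ C)) :=
  𝒜.image (fun A => A.map Function.Embedding.inl) ∪
    𝒞.image (fun A => A.map Function.Embedding.inr)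

omit [Fintype B] [Fintype C] in
lemma join_nonempty {𝒜 : Finset (Finset B)} {𝒞 : Finset (Finset C)}
    (h1 : ∀ A ∈ 𝒜, A.Nonempty) (h2 : ∀ A ∈ 𝒞, A.Nonempty) :
    ∀ A ∈ join 𝒜 𝒞, A.Nonempty := by
  intro A hA
  unfold join at hA
  rcases mem_union.1 hA with h | h
  · obtain ⟨D, hD, rfl⟩ := mem_image.1 h
    exact (h1 D hD).map
  · obtain ⟨D, hD, rfl⟩ := mem_image.1 h
    exact (h2 D hD).map

omit [Fintype B] [Fintype C] in
lemma cnt_join {𝒜 : Finset (Finset B)} {𝒞 : Finset (Finset C)}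
    (h1 : ∀ A ∈ 𝒜, A.Nonempty) (Y : Finset B) (Z : Finset C) :
    cnt (join 𝒜 𝒞) (Y.disjSum Z) = cnt 𝒜 Y + cnt 𝒞 Z := by
  unfold cnt join
  rw [filter_union, card_union_of_disjoint]
  · congr 1
    · rw [filter_image, card_image_of_injective _ (Finset.map_injective _)]
      congr 1
      refine filter_congr fun A _ => ?_
      rw [map_inl_subset_iff_subset_toLeft, toLeft_disjSum]
    · rw [filter_image, card_image_of_injective _ (Finset.map_injective _)]
      congr 1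
      refine filter_congr fun A _ => ?_
      rw [map_inr_subset_iff_subset_toRight, toRight_disjSum]
  · rw [Finset.disjoint_left]
    intro A hA hA'
    rw [mem_filter] at hA hA'
    obtain ⟨D, hD, hDA⟩ := mem_image.1 hA.1
    obtain ⟨E, hE, hEA⟩ := mem_image.1 hA'.1
    obtain ⟨x, hx⟩ := h1 D hD
    have h3 : Sum.inl x ∈ A := by
      rw [← hDA]
      exact mem_map.2 ⟨x, hx, rfl⟩
    rw [← hEA] at h3
    obtain ⟨y, _, hy⟩ := mem_map.1 h3
    simp at hy

lemma wt_disjSum (p : ℝ) (Y : Finset B) (Z : Finset C) :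
    wt p (Y.disjSum Z) = wt p Y * wt p Z := by
  unfold wt
  rw [card_disjSum, Fintype.card_sum]
  have h1 := card_le_univ Y
  have h2 := card_le_univ Z
  rw [show Fintype.card B + Fintype.card C - (Y.card + Z.card) =
    (Fintype.card B - Y.card) + (Fintype.card C - Z.card) by omega, pow_add, pow_add]
  ring

lemma sum_pairs (F : Finset (B ⊕ C) → ℝ) :
    ∑ X : Finset (B ⊕ C), F X = ∑ Y : Finset B, ∑ Z : Finset C, F (Y.disjSum Z) := by
  rw [← Fintype.sum_prod_type']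
  exact (Equiv.sum_comp (Finset.sumEquiv (α := B) (β := C)).symm.toEquiv F).symm

lemma prob_join_zero {𝒜 : Finset (Finset B)} {𝒞 : Finset (Finset C)}
    (h1 : ∀ A ∈ 𝒜, A.Nonempty) (p : ℝ) :
    prob (join 𝒜 𝒞) p 0 = prob 𝒜 p 0 * prob 𝒞 p 0 := by
  unfold prob
  rw [sum_pairs, sum_mul_sum]
  refine sum_congr rfl fun Y _ => sum_congr rfl fun Z _ => ?_
  rw [cnt_join h1, wt_disjSum]
  by_cases ha : cnt 𝒜 Y = 0
  · by_cases hb : cnt 𝒞 Z = 0
    · simp [ha, hb]
    · simp [ha, hb]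
  · simp [ha]

lemma prob_join_le {𝒜 : Finset (Finset B)} {𝒞 : Finset (Finset C)}
    (h1 : ∀ A ∈ 𝒜, A.Nonempty) {p : ℝ} (hp0 : 0 ≤ p) (hp1 : p ≤ 1) (l : ℕ) :
    prob 𝒜 p (l + 1) * prob 𝒞 p 0 + prob 𝒜 p 0 * prob 𝒞 p (l + 1) ≤
      prob (join 𝒜 𝒞) p (l + 1) := by
  unfold prob
  rw [sum_pairs, sum_mul_sum, sum_mul_sum, ← sum_add_distrib]
  refine sum_le_sum fun Y _ => ?_
  rw [← sum_add_distrib]
  refine sum_le_sum fun Z _ => ?_
  rw [cnt_join h1, wt_disjSum]
  have hY := wt_nonneg hp0 hp1 Y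
  have hZ := wt_nonneg hp0 hp1 Z
  have hYZ : 0 ≤ wt p Y * wt p Z := mul_nonneg hY hZ
  by_cases ha : cnt 𝒜 Y = 0
  · by_cases hb : cnt 𝒞 Z = l + 1
    · have : cnt 𝒞 Z ≠ 0 := by omega
      simp [ha, hb]
    · simp [ha, hb]
  · by_cases hb : cnt 𝒞 Z = 0
    · by_cases hc : cnt 𝒜 Y = l + 1
      · simp [hb, hc]
      · simp [ha, hb, hc]
    · simp only [ha, hb, if_false, mul_zero, zero_mul, add_zero]
      split_ifs
      · exact hYZ
      · exact le_rfl

end

/-- `n` disjoint copies of a family -/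
theorem copies {B : Type} [Fintype B] [DecidableEq B] (𝒜 : Finset (Finset B))
    (h1 : ∀ A ∈ 𝒜, A.Nonempty) {p : ℝ} (hp0 : 0 ≤ p) (hp1 : p ≤ 1) (l n : ℕ) :
    ∃ (C : Type) (_ : Fintype C) (_ : DecidableEq C) (𝒞 : Finset (Finset C)),
      (∀ A ∈ 𝒞, A.Nonempty) ∧ prob 𝒞 p 0 = prob 𝒜 p 0 ^ n ∧
      n * prob 𝒜 p (l + 1) * prob 𝒜 p 0 ^ (n - 1) ≤ prob 𝒞 p (l + 1) := by
  induction n with
  | zero =>
    refine ⟨Fin 0, inferInstance, inferInstance, ∅, by simp, ?_, ?_⟩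
    · rw [pow_zero, ← sum_wt (B := Fin 0) p]
      unfold prob
      refine sum_congr rfl fun X _ => ?_
      rw [if_pos]
      simp [cnt]
    · simp only [Nat.cast_zero, zero_mul]
      exact prob_nonneg hp0 hp1 _ _
  | succ n ih =>
    obtain ⟨C, i1, i2, 𝒞, hne, hz, hl⟩ := ih
    refine ⟨B ⊕ C, inferInstance, inferInstance, join 𝒜 𝒞, join_nonempty h1 hne, ?_, ?_⟩
    · rw [prob_join_zero h1, hz, pow_succ]
      ring
    · refine le_trans ?_ (prob_join_le h1 hp0 hp1 l)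
      rw [hz]
      have hz0 : 0 ≤ prob 𝒜 p 0 := prob_nonneg hp0 hp1 _ _
      have h2 := mul_le_mul_of_nonneg_left hl hz0
      rcases n with _ | n
      · simp only [zero_add, Nat.cast_one, one_mul, Nat.sub_self, pow_zero, mul_one]
        have : 0 ≤ prob 𝒜 p 0 * prob 𝒞 p (l + 1) := mul_nonneg hz0 (prob_nonneg hp0 hp1 _ _)
        linarith
      · simp only [Nat.add_sub_cancel] at h2 ⊢
        push_cast at h2 ⊢
        have e : prob 𝒜 p 0 ^ (n + 1) = prob 𝒜 p 0 ^ n * prob 𝒜 p 0 := pow_succ _ _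
        rw [e]
        linarith

end Pool.Agent.Q151.Ind
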