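import Pool.Agent.Q151.Ind.Block

set_option autoImplicit false

/-! Estimates for the binomial distribution. -/

namespace Pool.Agent.Q151.Ind

open Finset

/-- the probability that a random subset of an `m`-element set has exactly `i` elements -/
noncomputable def bin (m : ℕ) (p : ℝ) (i : ℕ) : ℝ := (m.choose i : ℝ) * p ^ i * (1 - p) ^ (m - i)

lemma bin_nonneg {m : ℕ} {p : ℝ} (h0 : 0 ≤ p) (h1 : p ≤ 1) (i : ℕ) : 0 ≤ bin m p i := by
  unfold bin
  have : (0 : ℝ) ≤ 1 - p := by linarith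
  positivity

lemma bin_zero {m : ℕ} {p : ℝ} {i : ℕ} (h : m < i) : bin m p i = 0 := by
  unfold bin
  rw [Nat.choose_eq_zero_of_lt h]
  simp

lemma bin_succ (m : ℕ) (p : ℝ) (i : ℕ) (hi : i < m) :
    bin m p (i + 1) * ((i : ℝ) + 1) * (1 - p) = bin m p i * ((m : ℝ) - i) * p := by
  unfold bin
  have h := Nat.choose_succ_right_eq m i
  have h' : (m.choose (i + 1) : ℝ) * ((i : ℝ) + 1) = (m.choose i : ℝ) * ((m : ℝ) - i) := by
    have : ((m.choose (i + 1) * (i + 1) : ℕ) : ℝ) = ((m.choose i * (m - i) : ℕ) : ℝ) := by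
      exact_mod_cast h
    push_cast [Nat.cast_sub hi.le] at this
    exact this
  have h2 : (1 - p) ^ (m - i) = (1 - p) ^ (m - (i + 1)) * (1 - p) := by
    rw [← pow_succ]
    congr 1
    omega
  rw [h2, pow_succ]
  linear_combination (p ^ i * p * (1 - p) ^ (m - (i + 1)) * (1 - p)) * h'

lemma bin_up {m : ℕ} {p R : ℝ} (h0 : 0 < p) (h1 : p < 1) {i c : ℕ} (hc : c ≤ i + 1)
    (hR : (m : ℝ) * p ≤ R * c * (1 - p)) (hc0 : 0 < c) :
    bin m p (i + 1) ≤ R * bin m p i := by
  have hb0 := bin_nonneg (m := m) h0.le h1.le i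
  have hb1 := bin_nonneg (m := m) h0.le h1.le (i + 1)
  have hc0' : (0 : ℝ) < c := by exact_mod_cast hc0
  have hp1 : 0 < 1 - p := by linarith
  have hmp : 0 ≤ (m : ℝ) * p := by positivity
  have hR0 : 0 ≤ R := by
    by_contra hneg
    push Not at hneg
    have : R * c * (1 - p) < 0 := by
      apply mul_neg_of_neg_of_pos _ hp1
      exact mul_neg_of_neg_of_pos hneg hc0'
    linarith
  rcases Nat.lt_or_ge i m with hi | hi
  · have h := bin_succ m p i hi
    have hci : (c : ℝ) ≤ (i : ℝ) + 1 := by exact_mod_cast hc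
    have e1 : bin m p i * ((m : ℝ) - i) * p ≤ bin m p i * (R * ((i : ℝ) + 1) * (1 - p)) := by
      have : ((m : ℝ) - i) * p ≤ R * ((i : ℝ) + 1) * (1 - p) := by
        have a1 : ((m : ℝ) - i) * p ≤ m * p := by
          apply mul_le_mul_of_nonneg_right _ h0.le
          have : (0 : ℝ) ≤ i := by positivity
          linarith
        have a2 : R * c * (1 - p) ≤ R * ((i : ℝ) + 1) * (1 - p) := by gcongr
        linarith
      calc bin m p i * ((m : ℝ) - i) * p = bin m p i * (((m : ℝ) - i) * p) := by ring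
        _ ≤ _ := mul_le_mul_of_nonneg_left this hb0
    have hpos : 0 < ((i : ℝ) + 1) * (1 - p) := by positivity
    have e2 : bin m p (i + 1) * (((i : ℝ) + 1) * (1 - p)) ≤
        R * bin m p i * (((i : ℝ) + 1) * (1 - p)) := by linarith
    exact le_of_mul_le_mul_right e2 hpos
  · rw [bin_zero (by omega : m < i + 1)]
    positivity

lemma bin_down {m s j i : ℕ} {p L : ℝ} (h0 : 0 < p) (h1 : p < 1) (hi : i < s + j)
    (hm : s + j ≤ m) (hL0 : 0 ≤ L) (hL : (j : ℝ) ≤ L * (((m : ℝ) - (s + j : ℕ)) * p)) :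
    bin m p i * (i.choose s : ℝ) ≤ L * (bin m p (i + 1) * ((i + 1).choose s : ℝ)) := by
  have hb0 := bin_nonneg (m := m) h0.le h1.le i
  have hb1 := bin_nonneg (m := m) h0.le h1.le (i + 1)
  rcases Nat.lt_or_ge i s with his | his
  · rw [Nat.choose_eq_zero_of_lt his]
    simp only [Nat.cast_zero, mul_zero]
    positivity
  · have h := bin_succ m p i (by omega)
    have hc := Nat.choose_mul_succ_eq i s
    have hc' : (i.choose s : ℝ) * ((i : ℝ) + 1) = ((i + 1).choose s : ℝ) * ((i : ℝ) + 1 - s) := by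
      have : ((i.choose s * (i + 1) : ℕ) : ℝ) = (((i + 1).choose s * (i + 1 - s) : ℕ) : ℝ) := by
        exact_mod_cast hc
      push_cast [Nat.cast_sub (show s ≤ i + 1 by omega)] at this
      exact this
    set x : ℝ := bin m p i
    set y : ℝ := bin m p (i + 1)
    set c0 : ℝ := (i.choose s : ℝ)
    set c1 : ℝ := ((i + 1).choose s : ℝ)
    have hc0 : 0 ≤ c0 := by positivity
    have hc1 : 0 ≤ c1 := by positivity
    have hmi : ((m : ℝ) - (s + j : ℕ)) ≤ (m : ℝ) - i := by
      have : (i : ℝ) ≤ ((s + j : ℕ) : ℝ) := by exact_mod_cast hi.le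
      linarith
    have hmi0 : 0 < (m : ℝ) - i := by
      have : (i : ℝ) < (m : ℝ) := by exact_mod_cast (by omega : i < m)
      linarith
    -- `x c0 (m - i) p (i+1) = y c1 (i + 1 - s) (1 - p) (i+1)`
    have key : x * c0 * (((m : ℝ) - i) * p) = y * c1 * ((i : ℝ) + 1 - s) * (1 - p) := by
      have hi1 : (0 : ℝ) < (i : ℝ) + 1 := by positivity
      have : x * c0 * (((m : ℝ) - i) * p) * ((i : ℝ) + 1) =
          y * c1 * ((i : ℝ) + 1 - s) * (1 - p) * ((i : ℝ) + 1) := by
        linear_combination (-c0 * ((i : ℝ) + 1)) * h + (y * (1 - p) * ((i : ℝ) + 1)) * hc'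
      exact mul_right_cancel₀ hi1.ne' this
    have hj : (i : ℝ) + 1 - s ≤ j := by
      have : ((i + 1 : ℕ) : ℝ) ≤ ((s + j : ℕ) : ℝ) := by exact_mod_cast hi
      push_cast at this
      linarith
    have hj0 : 0 ≤ (i : ℝ) + 1 - s := by
      have : (s : ℝ) ≤ (i : ℝ) := by exact_mod_cast his
      linarith
    have e1 : y * c1 * ((i : ℝ) + 1 - s) * (1 - p) ≤ L * (y * c1) * (((m : ℝ) - i) * p) := by
      have a1 : ((i : ℝ) + 1 - s) * (1 - p) ≤ j := by nlinarith
      have a2 : L * (((m : ℝ) - (s + j : ℕ)) * p) ≤ L * (((m : ℝ) - i) * p) := by gcongr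
      have a3 : ((i : ℝ) + 1 - s) * (1 - p) ≤ L * (((m : ℝ) - i) * p) := by linarith
      have a4 : 0 ≤ y * c1 := by positivity
      nlinarith [mul_le_mul_of_nonneg_left a3 a4]
    have hpos : 0 < ((m : ℝ) - i) * p := by positivity
    have e2 : x * c0 * (((m : ℝ) - i) * p) ≤ L * (y * c1) * (((m : ℝ) - i) * p) := by
      rw [key]; exact e1
    exact le_of_mul_le_mul_right e2 hpos

lemma geo_down {a : ℕ → ℝ} {L : ℝ} (hL : 0 ≤ L) (n : ℕ) (ha : ∀ i, 0 ≤ a i)
    (h : ∀ i, i < n → a i ≤ L * a (i + 1)) : (1 - L) * ∑ i ∈ range (n + 1), a i ≤ a n := by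
  induction n with
  | zero =>
    simp only [zero_add, sum_range_one]
    nlinarith [ha 0]
  | succ n ih =>
    have h1 := ih (fun i hi => h i (by omega))
    have h2 := h n (by omega)
    rw [sum_range_succ]
    linarith

lemma geo_up {b : ℕ → ℝ} {R : ℝ} (n : ℕ) (h : ∀ i, n ≤ i → b (i + 1) ≤ R * b i) (k : ℕ) :
    (1 - R) * ∑ i ∈ range k, b (n + 1 + i) + R * b (n + k) ≤ R * b n := by
  induction k with
  | zero => simp
  | succ k ih =>
    rw [sum_range_succ]
    have h2 := h (n + k) (by omega)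
    have e : n + 1 + k = n + k + 1 := by ring
    rw [e]
    have e2 : n + (k + 1) = n + k + 1 := by ring
    rw [e2]
    linarith

lemma geo_up' {b : ℕ → ℝ} {R : ℝ} (hR0 : 0 ≤ R) (n : ℕ) (hb : ∀ i, 0 ≤ b i)
    (h : ∀ i, n ≤ i → b (i + 1) ≤ R * b i) (k : ℕ) :
    (1 - R) * ∑ i ∈ range k, b (n + 1 + i) ≤ R * b n := by
  have := geo_up n h k
  have h2 : 0 ≤ R * b (n + k) := mul_nonneg hR0 (hb _)
  linarith

variable {B : Type} [Fintype B] [DecidableEq B]

lemma sum_wt_bin (p : ℝ) (g : ℕ → ℝ) :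
    ∑ X : Finset B, wt p X * g X.card =
      ∑ i ∈ range (Fintype.card B + 1), bin (Fintype.card B) p i * g i := by
  rw [sum_wt_card]
  rfl

lemma sum_bin (p : ℝ) (m : ℕ) : ∑ i ∈ range (m + 1), bin m p i = 1 := by
  have h := sum_wt_bin (B := Fin m) p (fun _ => 1)
  simp only [mul_one, Fintype.card_fin] at h
  rw [← h, sum_wt]

lemma bin_le_one {m : ℕ} {p : ℝ} (h0 : 0 ≤ p) (h1 : p ≤ 1) (i : ℕ) : bin m p i ≤ 1 := by
  rcases Nat.lt_or_ge m i with hi | hi
  · rw [bin_zero hi]; norm_num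
  · rw [← sum_bin p m]
    exact single_le_sum (f := fun i => bin m p i) (fun i _ => bin_nonneg h0 h1 i)
      (mem_range.2 (by omega))

/-- the upper bound for the average hot probability -/
lemma sum_hot_le {m s j : ℕ} {p L R N : ℝ} (h0 : 0 < p) (h1 : p < 1) (hs : 1 ≤ s)
    (hm : s + j ≤ m) (hL0 : 0 ≤ L) (hL1 : L < 1) (hR0 : 0 ≤ R) (hR1 : R < 1)
    (hL : (j : ℝ) ≤ L * (((m : ℝ) - (s + j : ℕ)) * p))
    (hR : (m : ℝ) * p ≤ R * s * (1 - p)) (hN : 0 < N) :
    ∑ i ∈ range (m + 1), bin m p i * min 1 ((i.choose s : ℝ) / N) ≤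
      bin m p (s + j) * ((((s + j).choose s : ℝ) / N) / (1 - L) + R / (1 - R)) := by
  obtain ⟨k, rfl⟩ := Nat.exists_eq_add_of_le hm
  rw [show s + j + k + 1 = (s + j + 1) + k by ring, sum_range_add]
  set m := s + j + k with hmdef
  have hA : ∑ i ∈ range (s + j + 1), bin m p i * min 1 ((i.choose s : ℝ) / N) ≤
      bin m p (s + j) * ((((s + j).choose s : ℝ) / N) / (1 - L)) := by
    have g := geo_down (a := fun i => bin m p i * (i.choose s : ℝ)) hL0 (s + j)
      (fun i => mul_nonneg (bin_nonneg h0.le h1.le i) (by positivity))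
      (fun i hi => bin_down h0 h1 hi hm hL0 hL)
    have g1 : ∑ i ∈ range (s + j + 1), bin m p i * min 1 ((i.choose s : ℝ) / N) ≤
        (∑ i ∈ range (s + j + 1), bin m p i * (i.choose s : ℝ)) / N := by
      rw [sum_div]
      refine sum_le_sum fun i _ => ?_
      rw [mul_div_assoc]
      exact mul_le_mul_of_nonneg_left (min_le_right _ _) (bin_nonneg h0.le h1.le i)
    refine g1.trans ?_
    have hL' : 0 < 1 - L := by linarith
    have g2 : ∑ i ∈ range (s + j + 1), bin m p i * (i.choose s : ℝ) ≤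
        bin m p (s + j) * ((s + j).choose s : ℝ) / (1 - L) := by
      rw [le_div_iff₀ hL']
      linarith
    calc (∑ i ∈ range (s + j + 1), bin m p i * (i.choose s : ℝ)) / N
        ≤ (bin m p (s + j) * ((s + j).choose s : ℝ) / (1 - L)) / N := by gcongr
      _ = _ := by ring
  have hB : ∑ i ∈ range k, bin m p (s + j + 1 + i) *
      min 1 (((s + j + 1 + i).choose s : ℝ) / N) ≤ bin m p (s + j) * (R / (1 - R)) := by
    have g := geo_up' (b := fun i => bin m p i) hR0 (s + j)
      (fun i => bin_nonneg h0.le h1.le i)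
      (fun i hi => bin_up h0 h1 (c := s) (by omega) hR (by omega)) k
    have g1 : ∑ i ∈ range k, bin m p (s + j + 1 + i) *
      min 1 (((s + j + 1 + i).choose s : ℝ) / N) ≤ ∑ i ∈ range k, bin m p (s + j + 1 + i) := by
      refine sum_le_sum fun i _ => ?_
      have := mul_le_mul_of_nonneg_left (min_le_left 1 (((s + j + 1 + i).choose s : ℝ) / N))
        (bin_nonneg (m := m) h0.le h1.le (s + j + 1 + i))
      linarith
    refine g1.trans ?_
    have hR' : 0 < 1 - R := by linarith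
    rw [mul_div_assoc', le_div_iff₀ hR']
    linarith
  linarith

/-- the probability to have at least `s` elements -/
lemma tail_le {m s : ℕ} {p R : ℝ} (h0 : 0 < p) (h1 : p < 1) (hs : 1 ≤ s)
    (hm : s ≤ m) (hR0 : 0 ≤ R) (hR1 : R < 1)
    (hR : (m : ℝ) * p ≤ R * s * (1 - p)) :
    ∑ i ∈ range (m + 1), bin m p i * (if s ≤ i then 1 else 0) ≤ R / (1 - R) := by
  obtain ⟨k, rfl⟩ := Nat.exists_eq_add_of_le hm
  rw [show s + k + 1 = s + (k + 1) by ring, sum_range_add]
  set m := s + k with hmdef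
  have hA : ∑ i ∈ range s, bin m p i * (if s ≤ i then (1 : ℝ) else 0) = 0 := by
    refine sum_eq_zero fun i hi => ?_
    rw [mem_range] at hi
    rw [if_neg (by omega), mul_zero]
  have g := geo_up' (b := fun i => bin m p i) hR0 (s - 1)
      (fun i => bin_nonneg h0.le h1.le i)
      (fun i hi => bin_up h0 h1 (c := s) (by omega) hR (by omega)) (k + 1)
  have hB : ∑ i ∈ range (k + 1), bin m p (s + i) * (if s ≤ s + i then (1 : ℝ) else 0) =
      ∑ i ∈ range (k + 1), bin m p (s - 1 + 1 + i) := by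
    refine sum_congr rfl fun i _ => ?_
    rw [if_pos (by omega), mul_one, show s - 1 + 1 + i = s + i by omega]
  rw [hA, hB, zero_add]
  have hR' : 0 < 1 - R := by linarith
  rw [le_div_iff₀ hR']
  have hb := bin_le_one (m := m) h0.le h1.le (s - 1)
  have : R * bin m p (s - 1) ≤ R * 1 := by gcongr
  have g' : (1 - R) * ∑ i ∈ range (k + 1), bin m p (s - 1 + 1 + i) ≤ R * bin m p (s - 1) := g
  linarith

end Pool.Agent.Q151.Ind
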