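import Pool.Agent.Q151.Ind.Param
import Pool.Agent.Q151.Ind.Join

set_option autoImplicit false

/-! The lower bound. -/

namespace Pool.Agent.Q151.Ind

open Finset Filter Topology

lemma one_sub_pow_ge {h ε : ℝ} (h0 : 0 < h) (hε : h ≤ ε) (hε1 : ε < 1) {n : ℕ}
    (hn : (n : ℝ) * h ≤ 1) : Real.exp (-(1 / (1 - ε))) ≤ (1 - h) ^ n := by
  have h1 : 0 < 1 - h := by linarith
  have h2 : 0 < 1 - ε := by linarith
  have e1 : Real.exp (-(h / (1 - h))) ≤ 1 - h := by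
    have h3 := Real.add_one_le_exp (h / (1 - h))
    have h4 : h / (1 - h) + 1 = 1 / (1 - h) := by field_simp; ring
    rw [h4] at h3
    rw [Real.exp_neg]
    have h5 : 0 < 1 / (1 - h) := by positivity
    calc (Real.exp (h / (1 - h)))⁻¹ ≤ (1 / (1 - h))⁻¹ := by gcongr
      _ = 1 - h := by simp
  calc Real.exp (-(1 / (1 - ε))) ≤ Real.exp (-(n * (h / (1 - h)))) := by
        apply Real.exp_le_exp.2
        have h3 : (n : ℝ) * (h / (1 - h)) ≤ 1 / (1 - ε) := by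
          rw [mul_div_assoc']
          gcongr
        linarith
    _ = Real.exp (-(h / (1 - h))) ^ n := by
        rw [← Real.exp_nat_mul]
        congr 1
        ring
    _ ≤ (1 - h) ^ n := by
        gcongr

theorem lower (j : ℕ) (c : ℝ) (hc : c < Real.exp (-1)) :
    ∃ p0 : ℝ, 0 < p0 ∧ p0 ≤ 1 / 2 ∧ ∀ p : ℝ, 0 < p → p ≤ p0 →
      ∃ (B : Type) (_ : Fintype B) (_ : DecidableEq B) (𝒜 : Finset (Finset B)),
        (∀ A ∈ 𝒜, A.Nonempty) ∧ c < prob 𝒜 p (j + 1) := by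
  obtain ⟨ε, hε0, hε1, hεc⟩ : ∃ ε : ℝ, 0 < ε ∧ ε ≤ 1 / 8 ∧
      c < (1 - 4 * ε) * Real.exp (-(1 / (1 - ε))) := by
    have hcont : ContinuousAt (fun ε : ℝ => (1 - 4 * ε) * Real.exp (-(1 / (1 - ε)))) 0 := by
      apply ContinuousAt.mul
      · fun_prop
      · apply Real.continuous_exp.continuousAt.comp
        apply ContinuousAt.neg
        apply ContinuousAt.div
        · fun_prop
        · fun_prop
        · norm_num
    have h0 : c < (fun ε : ℝ => (1 - 4 * ε) * Real.exp (-(1 / (1 - ε)))) 0 := by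
      simpa using hc
    have h1 := hcont.eventually (lt_mem_nhds h0)
    have h2 : ∀ᶠ ε in 𝓝[>] (0 : ℝ), c < (1 - 4 * ε) * Real.exp (-(1 / (1 - ε))) :=
      h1.filter_mono nhdsWithin_le_nhds
    have h3 : Set.Ioc (0 : ℝ) (1 / 8) ∈ 𝓝[>] (0 : ℝ) := Ioc_mem_nhdsGT (by norm_num)
    obtain ⟨ε, h4, h5⟩ := (h2.and h3).exists
    exact ⟨ε, h5.1, h5.2, h4⟩
  obtain ⟨p0, hp0, hp02, hblock⟩ := block_exists j ε hε0 hε1
  refine ⟨p0, hp0, hp02, ?_⟩
  intro p hp hpp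
  obtain ⟨m, 𝒜, hne, hh0, hhε, hα⟩ := hblock p hp hpp
  have hp1 : p ≤ 1 := by linarith
  obtain ⟨h, hh⟩ : ∃ h : ℝ, h = 1 - prob 𝒜 p 0 := ⟨_, rfl⟩
  rw [← hh] at hh0 hhε hα
  obtain ⟨n, hn⟩ : ∃ n : ℕ, n = ⌊1 / h⌋₊ := ⟨_, rfl⟩
  have hn1 : (n : ℝ) * h ≤ 1 := by
    have : (n : ℝ) ≤ 1 / h := by rw [hn]; exact Nat.floor_le (by positivity)
    rwa [le_div_iff₀ hh0] at this
  have hn2 : 1 - h ≤ (n : ℝ) * h := by
    have : 1 / h < (n : ℝ) + 1 := by rw [hn]; exact Nat.lt_floor_add_one _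
    rw [div_lt_iff₀ hh0] at this
    linarith
  have hn3 : 1 ≤ n := by
    by_contra hcon
    have : n = 0 := by omega
    rw [this] at hn2
    simp only [Nat.cast_zero, zero_mul] at hn2
    linarith
  obtain ⟨C, i1, i2, 𝒞, hne', _, hl⟩ := copies 𝒜 hne hp.le hp1 j n
  refine ⟨C, i1, i2, 𝒞, hne', ?_⟩
  have hz : prob 𝒜 p 0 = 1 - h := by rw [hh]; ring
  rw [hz] at hl
  have hpow := one_sub_pow_ge hh0 hhε (by linarith) hn1
  have h1h : 0 < 1 - h := by linarith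
  have h4 : 0 < 1 - 4 * ε := by linarith
  have hpos : 0 ≤ (1 - h) ^ (n - 1) := by positivity
  calc c < (1 - 4 * ε) * Real.exp (-(1 / (1 - ε))) := hεc
    _ ≤ (1 - 4 * ε) * (1 - h) ^ n := by gcongr
    _ = (1 - 4 * ε) * (1 - h) * (1 - h) ^ (n - 1) := by
        have : n = (n - 1) + 1 := by omega
        conv_lhs => rw [this, pow_succ]
        ring
    _ ≤ (n * ((1 - 4 * ε) * h)) * (1 - h) ^ (n - 1) := by
        apply mul_le_mul_of_nonneg_right _ hpos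
        nlinarith
    _ ≤ n * prob 𝒜 p (j + 1) * (1 - h) ^ (n - 1) := by
        apply mul_le_mul_of_nonneg_right _ hpos
        exact mul_le_mul_of_nonneg_left hα (by positivity)
    _ ≤ _ := hl

end Pool.Agent.Q151.Ind
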