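import Pool.Agent.Q151.Ind.Levels

set_option autoImplicit false

/-! The choice of the parameters of a block. -/

namespace Pool.Agent.Q151.Ind

open Finset

lemma hot_card {B : Type} [Fintype B] [DecidableEq B] {M s : ℕ} (χ : Finset B → Fin (M + 1))
    (X : Finset B) (h : cnt (fam s χ) X ≠ 0) : s ≤ X.card := by
  have h1 := hot χ X h
  unfold zc at h1
  obtain ⟨W, hW⟩ := Finset.card_ne_zero.1 h1
  rw [mem_filter, mem_powersetCard] at hW
  have := card_le_card hW.1.1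
  omega

lemma prob_add_le {B : Type} [Fintype B] [DecidableEq B] {p : ℝ} (h0 : 0 ≤ p) (h1 : p ≤ 1)
    (𝒜 : Finset (Finset B)) (l : ℕ) : prob 𝒜 p 0 + prob 𝒜 p (l + 1) ≤ 1 := by
  rw [← sum_wt (B := B) p]
  unfold prob
  rw [← sum_add_distrib]
  refine sum_le_sum fun X _ => ?_
  by_cases ha : cnt 𝒜 X = 0
  · rw [if_pos ha, if_neg (by omega), add_zero]
  · rw [if_neg ha, zero_add]
    split_ifs
    · exact le_rfl
    · exact wt_nonneg h0 h1 X

lemma hp_le {B : Type} [Fintype B] [DecidableEq B] {M s : ℕ} {p : ℝ} (h0 : 0 ≤ p) (h1 : p ≤ 1)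
    (χ : Finset B → Fin (M + 1)) :
    hp s p χ ≤ ∑ i ∈ range (Fintype.card B + 1), bin (Fintype.card B) p i *
      (if s ≤ i then 1 else 0) := by
  rw [hp_eq, ← sum_wt_bin p (fun i => if s ≤ i then (1 : ℝ) else 0)]
  refine sum_le_sum fun X _ => mul_le_mul_of_nonneg_left ?_ (wt_nonneg h0 h1 X)
  by_cases h : cnt (fam s χ) X = 0
  · rw [if_pos h]
    split_ifs <;> norm_num
  · rw [if_neg h, if_pos (hot_card χ X h)]

theorem block_exists (j : ℕ) (ε : ℝ) (hε0 : 0 < ε) (hε1 : ε ≤ 1 / 8) :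
    ∃ p0 : ℝ, 0 < p0 ∧ p0 ≤ 1 / 2 ∧ ∀ p : ℝ, 0 < p → p ≤ p0 →
      ∃ (m : ℕ) (𝒜 : Finset (Finset (Fin m))), (∀ A ∈ 𝒜, A.Nonempty) ∧
        0 < 1 - prob 𝒜 p 0 ∧ 1 - prob 𝒜 p 0 ≤ ε ∧
        (1 - 4 * ε) * (1 - prob 𝒜 p 0) ≤ prob 𝒜 p (j + 1) := by
  obtain ⟨ρ, hρ⟩ : ∃ ρ : ℝ, ρ = j / ε + 1 := ⟨_, rfl⟩
  obtain ⟨r, hr⟩ : ∃ r : ℝ, r = ε ^ 2 / 4 := ⟨_, rfl⟩
  have hr0 : 0 < r := by rw [hr]; positivity
  have hρ1 : 1 ≤ ρ := by rw [hρ]; have : 0 ≤ (j : ℝ) / ε := by positivity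
                         linarith
  have hρε : ε * (ρ - 1) = j := by rw [hρ]; field_simp; ring
  obtain ⟨s, hs⟩ : ∃ s : ℕ, s = ⌈2 * ρ / r⌉₊ + 1 := ⟨_, rfl⟩
  have hs1 : 1 ≤ s := by omega
  have hsr : 2 * ρ ≤ r * s := by
    have : 2 * ρ / r ≤ ⌈2 * ρ / r⌉₊ := Nat.le_ceil _
    have h2 : (s : ℝ) = (⌈2 * ρ / r⌉₊ : ℝ) + 1 := by rw [hs]; push_cast; ring
    have h3 : 2 * ρ / r ≤ s := by linarith
    rw [div_le_iff₀ hr0] at h3
    linarith
  have hsj : (0 : ℝ) < ((s + j + 1 : ℕ) : ℝ) := by positivity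
  refine ⟨min (1 / 2) (1 / ((s + j + 1 : ℕ) : ℝ)), by positivity, min_le_left _ _, ?_⟩
  intro p hp0 hpp
  have hp2 : p ≤ 1 / 2 := hpp.trans (min_le_left _ _)
  have hp1 : p < 1 := by linarith
  have hps : ((s + j + 1 : ℕ) : ℝ) * p ≤ 1 := by
    have := hpp.trans (min_le_right _ _)
    rw [le_div_iff₀ hsj] at this
    linarith
  obtain ⟨m, hm⟩ : ∃ m : ℕ, m = ⌊ρ / p⌋₊ := ⟨_, rfl⟩
  have hm1 : (m : ℝ) * p ≤ ρ := by
    have : (m : ℝ) ≤ ρ / p := by rw [hm]; exact Nat.floor_le (by positivity)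
    rwa [le_div_iff₀ hp0] at this
  have hm2 : ρ < ((m : ℝ) + 1) * p := by
    have : ρ / p < (m : ℝ) + 1 := by rw [hm]; exact Nat.lt_floor_add_one _
    rwa [div_lt_iff₀ hp0] at this
  have hm3 : s + j ≤ m := by
    have h1 : ((s + j + 1 : ℕ) : ℝ) * p < ((m : ℝ) + 1) * p := by linarith
    have h2 : ((s + j + 1 : ℕ) : ℝ) < ((m + 1 : ℕ) : ℝ) := by
      push_cast
      push_cast at h1
      exact lt_of_mul_lt_mul_right h1 hp0.le
    have h3 : s + j + 1 < m + 1 := by exact_mod_cast h2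
    omega
  have hL : (j : ℝ) ≤ ε * (((m : ℝ) - (s + j : ℕ)) * p) := by
    have h1 : ρ - 1 ≤ ((m : ℝ) - (s + j : ℕ)) * p := by
      push_cast at hps ⊢
      nlinarith
    calc (j : ℝ) = ε * (ρ - 1) := hρε.symm
      _ ≤ _ := by gcongr
  have hR : (m : ℝ) * p ≤ r * s * (1 - p) := by
    have : r * s * (1 / 2) ≤ r * s * (1 - p) := by
      apply mul_le_mul_of_nonneg_left _ (by positivity)
      linarith
    linarith
  have hr1 : r ≤ 1 / 4 := by rw [hr]; nlinarith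
  -- the number of colours
  obtain ⟨C, hC⟩ : ∃ C : ℝ, C = ((s + j).choose s : ℝ) := ⟨_, rfl⟩
  have hC1 : 1 ≤ C := by
    rw [hC]
    exact_mod_cast Nat.choose_pos (show s ≤ s + j by omega)
  obtain ⟨M, hM⟩ : ∃ M : ℕ, M = ⌈C / ε⌉₊ - 1 := ⟨_, rfl⟩
  have hN : (M : ℝ) + 1 = (⌈C / ε⌉₊ : ℝ) := by
    have h1 : 1 ≤ ⌈C / ε⌉₊ := by
      rw [Nat.one_le_ceil_iff]
      positivity
    have h2 : M + 1 = ⌈C / ε⌉₊ := by omega
    exact_mod_cast h2
  have hN1 : C / ε ≤ (M : ℝ) + 1 := by rw [hN]; exact Nat.le_ceil _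
  have hN2 : (M : ℝ) + 1 < C / ε + 1 := by rw [hN]; exact Nat.ceil_lt_add_one (by positivity)
  have hNpos : (0 : ℝ) < (M : ℝ) + 1 := by positivity
  obtain ⟨T, hT⟩ : ∃ T : ℝ, T = C / ((M : ℝ) + 1) := ⟨_, rfl⟩
  have hT1 : T ≤ ε := by
    rw [hT, div_le_iff₀ hNpos]
    rw [div_le_iff₀ hε0] at hN1
    linarith
  have hT2 : ε / 2 ≤ T := by
    rw [hT, le_div_iff₀ hNpos]
    have h1 : (M : ℝ) + 1 ≤ 2 * (C / ε) := by
      have : 1 ≤ C / ε := by
        rw [le_div_iff₀ hε0]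
        linarith
      linarith
    calc ε / 2 * ((M : ℝ) + 1) ≤ ε / 2 * (2 * (C / ε)) := by gcongr
      _ = C := by field_simp
  have hT0 : 0 < T := by linarith
  -- the averages
  have hb : 0 < bin m p (s + j) := by
    unfold bin
    have h1 : (0 : ℝ) < (m.choose (s + j) : ℝ) := by exact_mod_cast Nat.choose_pos hm3
    have h2 : 0 < 1 - p := by linarith
    positivity
  have hA : bin m p (s + j) * (T - T ^ 2) ≤
      avg M (fun χ : Finset (Fin m) → Fin (M + 1) => prob (fam s χ) p (j + 1)) := by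
    have h1 := avg_prob (B := Fin m) (M := M) s j hp0.le hp1.le
    have h2 := sum_wt_bin (B := Fin m) p (fun i => if i = s + j then
      ((s + j).choose s : ℝ) / ((M : ℝ) + 1) - (((s + j).choose s : ℝ) / ((M : ℝ) + 1)) ^ 2 else 0)
    rw [h2] at h1
    refine le_trans ?_ h1
    rw [Fintype.card_fin]
    rw [← hC, ← hT]
    simp only [mul_ite, mul_zero]
    rw [Finset.sum_ite_eq' (range (m + 1)) (s + j), if_pos (mem_range.2 (by omega))]
  have hH : avg M (fun χ : Finset (Fin m) → Fin (M + 1) => hp s p χ) ≤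
      bin m p (s + j) * (T / (1 - ε) + r / (1 - r)) := by
    have h1 := avg_hp (B := Fin m) (M := M) s hp0.le hp1.le
    have h2 := sum_wt_bin (B := Fin m) p (fun i => min 1 ((i.choose s : ℝ) / ((M : ℝ) + 1)))
    rw [h2] at h1
    refine h1.trans ?_
    rw [Fintype.card_fin]
    have h3 := sum_hot_le (m := m) (s := s) (j := j) (p := p) (L := ε) (R := r)
      (N := (M : ℝ) + 1) hp0 hp1 hs1 hm3 hε0.le (by linarith) hr0.le (by linarith) hL hR hNpos
    rw [← hC, ← hT] at h3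
    exact h3
  have hr2 : r / (1 - r) ≤ ε ^ 2 / 2 := by
    rw [div_le_iff₀ (by linarith)]
    have : ε ^ 2 / 2 = 2 * r := by rw [hr]; ring
    rw [this]
    nlinarith
  have hnum : (1 - 4 * ε) * (T / (1 - ε) + r / (1 - r)) < T - T ^ 2 := by
    have h1 : r / (1 - r) ≤ ε * T := by nlinarith
    have h2 : T / (1 - ε) ≤ T * (1 + 2 * ε) := by
      rw [div_le_iff₀ (by linarith)]
      nlinarith [mul_pos hT0 hε0]
    have h3 : (1 - 4 * ε) * (T / (1 - ε) + r / (1 - r)) ≤ (1 - 4 * ε) * (T * (1 + 3 * ε)) := by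
      apply mul_le_mul_of_nonneg_left _ (by linarith)
      linarith
    have h4 : (1 - 4 * ε) * (T * (1 + 3 * ε)) < T * (1 - ε) := by
      have : 0 < T * ε ^ 2 := by positivity
      nlinarith
    have h5 : T * (1 - ε) ≤ T - T ^ 2 := by nlinarith
    linarith
  have hpos : 0 < avg M (fun χ : Finset (Fin m) → Fin (M + 1) =>
      prob (fam s χ) p (j + 1) - (1 - 4 * ε) * hp s p χ) := by
    rw [avg_sub, avg_mul]
    have h1 : (1 - 4 * ε) * avg M (fun χ : Finset (Fin m) → Fin (M + 1) => hp s p χ) ≤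
        (1 - 4 * ε) * (bin m p (s + j) * (T / (1 - ε) + r / (1 - r))) := by
      apply mul_le_mul_of_nonneg_left hH (by linarith)
    have h2 := mul_lt_mul_of_pos_left hnum hb
    nlinarith
  obtain ⟨χ, hχ⟩ := avg_pos_exists hpos
  have hhp0 : 0 ≤ hp s p χ := by
    unfold hp
    linarith [prob_le_one hp0.le hp1.le (fam s χ) 0]
  have hα : 0 < prob (fam s χ) p (j + 1) := by
    have : 0 ≤ (1 - 4 * ε) * hp s p χ := mul_nonneg (by linarith) hhp0
    linarith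
  refine ⟨m, fam s χ, fam_nonempty hs1 χ, ?_, ?_, ?_⟩
  · have := prob_add_le hp0.le hp1.le (fam s χ) j
    linarith
  · have h1 : hp s p χ ≤ _ := hp_le hp0.le hp1.le χ
    rw [Fintype.card_fin] at h1
    have h2 := tail_le (m := m) (s := s) (p := p) (R := r) hp0 hp1 hs1 (by omega) hr0.le
      (by linarith) hR
    have h3 : ε ^ 2 / 2 ≤ ε := by nlinarith
    have h4 : hp s p χ = 1 - prob (fam s χ) p 0 := rfl
    linarith
  · have h4 : hp s p χ = 1 - prob (fam s χ) p 0 := rfl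
    rw [← h4]
    linarith

end Pool.Agent.Q151.Ind
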