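import Pool.Agent.Q151.Ind.Basic

set_option autoImplicit false

/-! The upper bound: the probability to contain exactly `ℓ ≥ 1` members is at most
`1 / (e (1 - p))`. -/

namespace Pool.Agent.Q151.Ind

open Finset

variable {B : Type} [Fintype B] [DecidableEq B]

/-- the elements `b` outside `Y` such that the part of `Y ∪ {b}` up to `b` contains at least `l`
members -/
def jump (𝒜 : Finset (Finset B)) (e : B → ℕ) (l : ℕ) (Y : Finset B) : Finset B :=
  univ.filter (fun b => b ∉ Y ∧ l ≤ cnt 𝒜 ((insert b Y).filter (fun z => e z ≤ e b)))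

lemma cnt_empty {𝒜 : Finset (Finset B)} (h : ∀ A ∈ 𝒜, A.Nonempty) : cnt 𝒜 ∅ = 0 := by
  unfold cnt
  rw [card_eq_zero, filter_eq_empty_iff]
  intro A hA hA'
  rw [subset_empty] at hA'
  exact (h A hA).ne_empty hA'

lemma jump_le {𝒜 : Finset (Finset B)} {e : B → ℕ} {l : ℕ} {Y : Finset B} {b : B}
    (hb : b ∈ jump 𝒜 e l Y) (Z : Finset B) (hY : Y ⊆ Z) (hbZ : b ∈ Z) :
    l ≤ cnt 𝒜 (Z.filter (fun z => e z ≤ e b)) := by
  unfold jump at hb
  rw [mem_filter] at hb
  refine hb.2.2.trans (cnt_mono _ ?_)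
  apply filter_subset_filter
  exact insert_subset hbZ hY

lemma jump_le' {𝒜 : Finset (Finset B)} {e : B → ℕ} {l : ℕ} {Y : Finset B} {b : B}
    (hb : b ∈ jump 𝒜 e l Y) (Z : Finset B) (hY : Y ⊆ Z) (hbZ : b ∈ Z) : l ≤ cnt 𝒜 Z :=
  (jump_le hb Z hY hbZ).trans (cnt_mono _ (filter_subset _ _))

lemma jump_inj {𝒜 : Finset (Finset B)} {e : B → ℕ} (he : Function.Injective e) {l : ℕ} :
    ∀ (n : ℕ) (Y₁ S₁ Y₂ S₂ : Finset B), S₁.card = n → cnt 𝒜 Y₁ < l → cnt 𝒜 Y₂ < l →
      S₁ ⊆ jump 𝒜 e l Y₁ → S₂ ⊆ jump 𝒜 e l Y₂ → Y₁ ∪ S₁ = Y₂ ∪ S₂ → Y₁ = Y₂ ∧ S₁ = S₂ := by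
  intro n
  induction n with
  | zero =>
    intro Y₁ S₁ Y₂ S₂ h0 h1 h2 hS1 hS2 hU
    rw [card_eq_zero] at h0
    subst h0
    rw [union_empty] at hU
    rcases S₂.eq_empty_or_nonempty with hS | ⟨b, hb⟩
    · subst hS
      rw [union_empty] at hU
      exact ⟨hU, rfl⟩
    · exfalso
      have := jump_le' (hS2 hb) Y₁ (by rw [hU]; exact subset_union_left)
        (by rw [hU]; exact mem_union_right _ hb)
      omega
  | succ n ih =>
    intro Y₁ S₁ Y₂ S₂ h0 h1 h2 hS1 hS2 hU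
    have hne1 : S₁.Nonempty := by rw [← card_pos]; omega
    have hne2 : S₂.Nonempty := by
      rw [nonempty_iff_ne_empty]
      intro hS
      subst hS
      rw [union_empty] at hU
      obtain ⟨b, hb⟩ := hne1
      have := jump_le' (hS1 hb) Y₂ (by rw [← hU]; exact subset_union_left)
        (by rw [← hU]; exact mem_union_right _ hb)
      omega
    obtain ⟨b₁, hb1, hm1⟩ := exists_min_image S₁ e hne1
    obtain ⟨b₂, hb2, hm2⟩ := exists_min_image S₂ e hne2
    have key : ∀ (Y₁ S₁ Y₂ S₂ : Finset B) (b₁ b₂ : B), b₁ ∈ S₁ → (∀ x ∈ S₂, e b₂ ≤ e x) →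
        cnt 𝒜 Y₂ < l → S₁ ⊆ jump 𝒜 e l Y₁ → Y₁ ∪ S₁ = Y₂ ∪ S₂ → e b₂ ≤ e b₁ := by
      intro Y₁ S₁ Y₂ S₂ b₁ b₂ hb1 hm2 h2 hS1 hU
      by_contra hlt
      push Not at hlt
      have h3 := jump_le (hS1 hb1) (Y₁ ∪ S₁) subset_union_left (mem_union_right _ hb1)
      have h4 : (Y₁ ∪ S₁).filter (fun z => e z ≤ e b₁) ⊆ Y₂ := by
        intro z hz
        rw [mem_filter, hU, mem_union] at hz
        rcases hz with ⟨hz | hz, hzb⟩
        · exact hz
        · have := hm2 z hz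
          omega
      have h5 := cnt_mono 𝒜 h4
      omega
    have k1 := key Y₁ S₁ Y₂ S₂ b₁ b₂ hb1 hm2 h2 hS1 hU
    have k2 := key Y₂ S₂ Y₁ S₁ b₂ b₁ hb2 hm1 h1 hS2 hU.symm
    have hb : b₁ = b₂ := he (le_antisymm k2 k1)
    subst hb
    have hn1 : b₁ ∉ Y₁ := by
      have := hS1 hb1
      unfold jump at this
      rw [mem_filter] at this
      exact this.2.1
    have hn2 : b₁ ∉ Y₂ := by
      have := hS2 hb2
      unfold jump at this
      rw [mem_filter] at this
      exact this.2.1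
    have hU' : Y₁ ∪ S₁.erase b₁ = Y₂ ∪ S₂.erase b₁ := by
      have e1 : (Y₁ ∪ S₁).erase b₁ = Y₁ ∪ S₁.erase b₁ := by
        ext z
        simp only [mem_erase, mem_union]
        constructor
        · rintro ⟨h, h' | h'⟩
          · exact Or.inl h'
          · exact Or.inr ⟨h, h'⟩
        · rintro (h | ⟨h, h'⟩)
          · exact ⟨fun hz => hn1 (hz ▸ h), Or.inl h⟩
          · exact ⟨h, Or.inr h'⟩
      have e2 : (Y₂ ∪ S₂).erase b₁ = Y₂ ∪ S₂.erase b₁ := by
        ext z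
        simp only [mem_erase, mem_union]
        constructor
        · rintro ⟨h, h' | h'⟩
          · exact Or.inl h'
          · exact Or.inr ⟨h, h'⟩
        · rintro (h | ⟨h, h'⟩)
          · exact ⟨fun hz => hn2 (hz ▸ h), Or.inl h⟩
          · exact ⟨h, Or.inr h'⟩
      rw [← e1, ← e2, hU]
    have hc : (S₁.erase b₁).card = n := by
      rw [card_erase_of_mem hb1]
      omega
    obtain ⟨r1, r2⟩ := ih Y₁ (S₁.erase b₁) Y₂ (S₂.erase b₁) hc h1 h2
      ((erase_subset _ _).trans hS1) ((erase_subset _ _).trans hS2) hU'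
    refine ⟨r1, ?_⟩
    rw [← insert_erase hb1, r2, insert_erase hb2]

lemma jump_disj {𝒜 : Finset (Finset B)} {e : B → ℕ} {l : ℕ} {Y S : Finset B}
    (h : S ⊆ jump 𝒜 e l Y) : Disjoint Y S := by
  rw [Finset.disjoint_right]
  intro b hb
  have := h hb
  unfold jump at this
  rw [mem_filter] at this
  exact this.2.1

lemma wt_union {p : ℝ} (hp : p < 1) {Y S : Finset B} (h : Disjoint Y S) :
    wt p (Y ∪ S) = wt p Y * (p / (1 - p)) ^ S.card := by
  have hp' : (1 - p) ≠ 0 := by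
    have : 0 < 1 - p := by linarith
    exact this.ne'
  unfold wt
  rw [card_union_of_disjoint h]
  have hle : Y.card + S.card ≤ Fintype.card B := by
    rw [← card_union_of_disjoint h]
    exact card_le_univ _
  have e : Fintype.card B - Y.card = (Fintype.card B - (Y.card + S.card)) + S.card := by omega
  rw [e, pow_add, pow_add, div_pow]
  field_simp

lemma exists_jump {𝒜 : Finset (Finset B)} (hne : ∀ A ∈ 𝒜, A.Nonempty) {e : B → ℕ}
    {l : ℕ} (hl : 1 ≤ l) (Z : Finset B)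
    (hZ : cnt 𝒜 Z = l) :
    ∃ (Y : Finset B) (b : B), cnt 𝒜 Y < l ∧ b ∈ jump 𝒜 e l Y ∧ Y ∪ {b} = Z := by
  obtain ⟨U, hU⟩ : ∃ U : Finset B, U = (𝒜.filter (fun A => A ⊆ Z)).biUnion id := ⟨_, rfl⟩
  have hUne : U.Nonempty := by
    have h1 : (𝒜.filter (fun A => A ⊆ Z)).Nonempty := by
      rw [← card_pos]
      unfold cnt at hZ
      omega
    obtain ⟨A, hA⟩ := h1
    obtain ⟨x, hx⟩ := hne A (mem_filter.1 hA).1
    exact ⟨x, by rw [hU, mem_biUnion]; exact ⟨A, hA, hx⟩⟩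
  obtain ⟨b, hb, hmax⟩ := exists_max_image U e hUne
  rw [hU, mem_biUnion] at hb
  obtain ⟨A, hA, hbA⟩ := hb
  have hA' := mem_filter.1 hA
  have hbZ : b ∈ Z := hA'.2 hbA
  refine ⟨Z.erase b, b, ?_, ?_, ?_⟩
  · rw [← hZ]
    unfold cnt
    apply card_lt_card
    rw [ssubset_iff_of_subset]
    · refine ⟨A, hA, ?_⟩
      rw [mem_filter]
      rintro ⟨_, h⟩
      exact (mem_erase.1 (h hbA)).1 rfl
    · intro D hD
      rw [mem_filter] at hD ⊢
      exact ⟨hD.1, hD.2.trans (erase_subset _ _)⟩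
  · unfold jump
    rw [mem_filter]
    refine ⟨mem_univ _, notMem_erase _ _, ?_⟩
    rw [insert_erase hbZ, ← hZ]
    unfold cnt
    apply card_le_card
    intro D hD
    have hD' := mem_filter.1 hD
    rw [mem_filter]
    refine ⟨hD'.1, ?_⟩
    intro x hx
    rw [mem_filter]
    refine ⟨hD'.2 hx, hmax x ?_⟩
    rw [hU, mem_biUnion]
    exact ⟨D, hD, hx⟩
  · rw [union_comm, ← insert_eq, insert_erase hbZ]

theorem prob_le (𝒜 : Finset (Finset B)) (hne : ∀ A ∈ 𝒜, A.Nonempty) {p : ℝ} (hp0 : 0 ≤ p)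
    (hp1 : p < 1) {l : ℕ} (hl : 1 ≤ l) : prob 𝒜 p l ≤ Real.exp (-1) / (1 - p) := by
  obtain ⟨e, he⟩ : ∃ e : B → ℕ, Function.Injective e :=
    ⟨fun b => (Fintype.equivFin B b : ℕ), fun a b h => by
      apply (Fintype.equivFin B).injective
      exact Fin.ext h⟩
  have hq : 0 < 1 - p := by linarith
  set D : Finset (Finset B) := univ.filter (fun Y => cnt 𝒜 Y < l) with hD
  -- the first inequality
  have hA : ∑ Y ∈ D, wt p Y * (1 / (1 - p)) ^ (jump 𝒜 e l Y).card ≤ 1 := by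
    have h1 : ∑ q ∈ D.sigma (fun Y => (jump 𝒜 e l Y).powerset), wt p (q.1 ∪ q.2) ≤ 1 := by
      have hinj : Set.InjOn (fun q : (Σ _ : Finset B, Finset B) => q.1 ∪ q.2)
          (D.sigma (fun Y => (jump 𝒜 e l Y).powerset) : Finset (Σ _ : Finset B, Finset B)) := by
        rintro ⟨Y₁, S₁⟩ h1 ⟨Y₂, S₂⟩ h2 h12
        rw [mem_coe, mem_sigma] at h1 h2
        simp only [hD, mem_filter, mem_univ, true_and, mem_powerset] at h1 h2
        obtain ⟨r1, r2⟩ := jump_inj he S₁.card Y₁ S₁ Y₂ S₂ rfl h1.1 h2.1 h1.2 h2.2 h12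
        subst r1
        subst r2
        rfl
      rw [← sum_image (f := fun Z => wt p Z) hinj, ← sum_wt (B := B) p]
      apply sum_le_sum_of_subset_of_nonneg (subset_univ _)
      intro Z _ _
      exact wt_nonneg hp0 hp1.le Z
    rw [sum_sigma] at h1
    refine le_trans (le_of_eq ?_) h1
    refine sum_congr rfl fun Y _ => ?_
    have h2 : ∀ S ∈ (jump 𝒜 e l Y).powerset, wt p (Y ∪ S) = wt p Y * (p / (1 - p)) ^ S.card :=
      fun S hS => wt_union hp1 (jump_disj (mem_powerset.1 hS))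
    rw [sum_congr rfl h2, ← mul_sum]
    congr 1
    have h3 := Finset.sum_pow_mul_eq_add_pow (p / (1 - p)) 1 (jump 𝒜 e l Y)
    simp only [one_pow, mul_one] at h3
    rw [h3]
    congr 1
    field_simp
    ring
  -- the second inequality
  have hB : prob 𝒜 p l ≤ ∑ Y ∈ D, wt p Y * (p / (1 - p) * (jump 𝒜 e l Y).card) := by
    have h1 : prob 𝒜 p l ≤
        ∑ q ∈ D.sigma (fun Y => jump 𝒜 e l Y), wt p (q.1 ∪ {q.2}) := by
      have hinj : Set.InjOn (fun q : (Σ _ : Finset B, B) => q.1 ∪ {q.2})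
          (D.sigma (fun Y => jump 𝒜 e l Y) : Finset (Σ _ : Finset B, B)) := by
        rintro ⟨Y₁, b₁⟩ h1 ⟨Y₂, b₂⟩ h2 h12
        rw [mem_coe, mem_sigma] at h1 h2
        simp only [hD, mem_filter, mem_univ, true_and] at h1 h2
        obtain ⟨r1, r2⟩ := jump_inj he 1 Y₁ {b₁} Y₂ {b₂} (card_singleton _) h1.1 h2.1
          (by simpa using h1.2) (by simpa using h2.2) h12
        subst r1
        rw [singleton_inj] at r2
        subst r2
        rfl
      rw [← sum_image (f := fun Z => wt p Z) hinj]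
      unfold prob
      rw [← sum_filter]
      apply sum_le_sum_of_subset_of_nonneg
      · intro Z hZ
        rw [mem_filter] at hZ
        obtain ⟨Y, b, hY, hb, hYb⟩ := exists_jump hne (e := e) hl Z hZ.2
        rw [mem_image]
        refine ⟨⟨Y, b⟩, ?_, hYb⟩
        rw [mem_sigma]
        exact ⟨by rw [hD, mem_filter]; exact ⟨mem_univ _, hY⟩, hb⟩
      · intro Z _ _
        exact wt_nonneg hp0 hp1.le Z
    rw [sum_sigma] at h1
    refine h1.trans (le_of_eq ?_)
    refine sum_congr rfl fun Y _ => ?_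
    have h2 : ∀ b ∈ jump 𝒜 e l Y, wt p (Y ∪ {b}) = wt p Y * (p / (1 - p)) := by
      intro b hb
      rw [wt_union hp1 (jump_disj (e := e) (𝒜 := 𝒜) (l := l) (by simpa using hb)),
        card_singleton, pow_one]
    rw [sum_congr rfl h2, sum_const, nsmul_eq_mul]
    ring
  refine hB.trans ?_
  have hC : ∀ Y ∈ D, wt p Y * (p / (1 - p) * (jump 𝒜 e l Y).card) ≤
      Real.exp (-1) / (1 - p) * (wt p Y * (1 / (1 - p)) ^ (jump 𝒜 e l Y).card) := by
    intro Y _
    set k := (jump 𝒜 e l Y).card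
    have hw := wt_nonneg hp0 hp1.le Y
    have h1 : Real.exp p ≤ 1 / (1 - p) := by
      rw [le_div_iff₀ hq]
      have h2 : 1 - p ≤ Real.exp (-p) := by
        have := Real.add_one_le_exp (-p)
        linarith
      calc Real.exp p * (1 - p) ≤ Real.exp p * Real.exp (-p) := by
            gcongr
        _ = 1 := by rw [← Real.exp_add]; simp
    have h3 : Real.exp (p * k) ≤ (1 / (1 - p)) ^ k := by
      have : Real.exp (p * k) = Real.exp p ^ k := by
        rw [← Real.exp_nat_mul]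
        congr 1
        ring
      rw [this]
      gcongr
    have h4 : p * k ≤ Real.exp (-1) * (1 / (1 - p)) ^ k := by
      have h5 := Real.add_one_le_exp (p * k - 1)
      have h6 : Real.exp (p * k - 1) = Real.exp (-1) * Real.exp (p * k) := by
        rw [← Real.exp_add]
        congr 1
        ring
      calc p * k = p * k - 1 + 1 := by ring
        _ ≤ Real.exp (p * k - 1) := h5
        _ = Real.exp (-1) * Real.exp (p * k) := h6
        _ ≤ _ := by gcongr
    calc wt p Y * (p / (1 - p) * k) = wt p Y * (1 / (1 - p)) * (p * k) := by ring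
      _ ≤ wt p Y * (1 / (1 - p)) * (Real.exp (-1) * (1 / (1 - p)) ^ k) := by gcongr
      _ = _ := by ring
  refine (sum_le_sum hC).trans ?_
  rw [← mul_sum]
  have : 0 ≤ Real.exp (-1) / (1 - p) := by positivity
  calc _ ≤ Real.exp (-1) / (1 - p) * 1 := mul_le_mul_of_nonneg_left hA this
    _ = _ := mul_one _

end Pool.Agent.Q151.Ind
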